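import Pool.Agent.H48.Fish.Final

/-!
# MP_0ade3f_co, Q1: the full positive answer

For every `n ≥ 1` the statistics `lrmax` and `rlmax` have symmetric joint distribution on the set
`𝒜_n` of Fishburn permutations.

A permutation of size `n` is `π : Equiv.Perm (Fin n)`: the position `i ∈ {1, …, n}` of the problem
is the element `i - 1` of `Fin n` and the entry `π_i` is `(π (i - 1) : ℕ) + 1`.  Both conditions
below only compare positions, values, and consecutive positions and values, so this shift of the
labels is harmless.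
-/

namespace Pool.Agent.Results.MP_0ade3f_co.JointSymmetry

open Finset

/-- `π ∈ 𝒜_n`: there are no `i, j, k` with `i + 1 = j < k` and `π_i + 1 = π_k < π_j`. -/
def Avoids {n : ℕ} (π : Equiv.Perm (Fin n)) : Prop :=
  ¬ ∃ i j k : Fin n, (i : ℕ) + 1 = (j : ℕ) ∧ j < k ∧ (π i : ℕ) + 1 = (π k : ℕ) ∧ π k < π j

/-- The number of left-to-right maxima: `π_i > π_m` for every `m < i`. -/
def lrmax {n : ℕ} (π : Equiv.Perm (Fin n)) : ℕ :=
  (univ.filter fun i : Fin n => ∀ m : Fin n, m < i → π m < π i).card

/-- The number of right-to-left maxima: `π_i > π_m` for every `m > i`. -/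
def rlmax {n : ℕ} (π : Equiv.Perm (Fin n)) : ℕ :=
  (univ.filter fun i : Fin n => ∀ m : Fin n, i < m → π m < π i).card

open Classical in
/-- `lrmax` and `rlmax` have symmetric joint distribution on `𝒜_n`, for every `n ≥ 1`. -/
theorem result (n : ℕ) (hn : 1 ≤ n) (a b : ℕ) :
    (univ.filter fun π : Equiv.Perm (Fin n) => Avoids π ∧ lrmax π = a ∧ rlmax π = b).card =
      (univ.filter fun π : Equiv.Perm (Fin n) => Avoids π ∧ lrmax π = b ∧ rlmax π = a).card := by
  obtain ⟨n, rfl⟩ : ∃ m, n = m + 1 := ⟨n - 1, by omega⟩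
  have h := Pool.Agent.H48.Fish.main n a b
  have e : ∀ π : Equiv.Perm (Fin (n + 1)), Avoids π ↔
      Pool.Agent.H48.Fish.Av (fun i => (π i : ℕ)) := by
    intro π
    rfl
  simp only [e]
  exact h

end Pool.Agent.Results.MP_0ade3f_co.JointSymmetry
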